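import Pool.Agent.H35.FX.Top

/-!
# FX Dy: exceptional classes which are constant on dyadic ranges

`B(x,q)` is the set of the classes with the `⌊q^2 Y^(ε-1)⌋` largest errors up to `Y`, `Y` the least power of two `≥ x`.  The union
over the `x ≥ X` is a union over powers of two and has at most `C q^2 X^(ε-1)` elements.
-/

set_option autoImplicit false

namespace Pool.Agent.H35.FX

open Finset
open Pool.Agent.H91.EHA (err err_one)
open Pool.Agent.H80.KF (ME)

theorem ME_mono (x y q : ℕ) (b : ZMod q) (h : x ≤ y) : ME x q b ≤ ME y q b := by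
  unfold ME
  refine Finset.sup'_le _ _ fun z hz => ?_
  rw [mem_range] at hz
  exact Finset.le_sup' (fun y => |err y q b|) (mem_range.2 (by omega))

/-- the least power of two at least `x` -/
def dy (x : ℕ) : ℕ := 2 ^ Nat.clog 2 x

theorem le_dy (x : ℕ) : x ≤ dy x := Nat.le_pow_clog (by norm_num) x

theorem dy_le (x : ℕ) (hx : 1 ≤ x) : dy x ≤ 2 * x := by
  unfold dy
  rcases Nat.lt_or_ge 1 x with h | h
  · have h1 := Nat.pow_pred_clog_lt_self (b := 2) (by norm_num) h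
    have h2 : 0 < Nat.clog 2 x := Nat.clog_pos (by norm_num) h
    obtain ⟨k, hk⟩ : ∃ k, Nat.clog 2 x = k + 1 := ⟨Nat.clog 2 x - 1, by omega⟩
    rw [hk] at h1 ⊢
    rw [Nat.pred_succ] at h1
    rw [pow_succ]
    omega
  · have h1 : x = 1 := by omega
    rw [h1]
    norm_num

private theorem dy_geo (ε : ℝ) (hε1 : ε < 1) (N J : ℕ) :
    ∑ j ∈ Ico N (N + J), ((2 : ℝ) ^ j) ^ (ε - 1) ≤ ((2 : ℝ) ^ N) ^ (ε - 1) * (1 - (2 : ℝ) ^ (ε - 1))⁻¹ := by
  set s : ℝ := (2 : ℝ) ^ (ε - 1) with hs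
  have hs0 : 0 < s := by positivity
  have hs1 : s < 1 := Real.rpow_lt_one_of_one_lt_of_neg (by norm_num) (by linarith)
  have hpow : ∀ j : ℕ, ((2 : ℝ) ^ j) ^ (ε - 1) = s ^ j := by
    intro j
    rw [hs, ← Real.rpow_natCast, ← Real.rpow_natCast, ← Real.rpow_mul (by norm_num), ← Real.rpow_mul (by norm_num), mul_comm]
  rw [hpow, sum_congr rfl fun j _ => hpow j, sum_Ico_eq_sum_range, Nat.add_sub_cancel_left]
  rw [sum_congr rfl fun j _ => pow_add s N j, ← mul_sum]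
  refine mul_le_mul_of_nonneg_left ?_ (by positivity)
  have h1 : ∑ j ∈ range J, s ^ j ≤ ∑' j : ℕ, s ^ j :=
    (summable_geometric_of_lt_one hs0.le hs1).sum_le_tsum _ (fun j _ => by positivity)
  rwa [tsum_geometric_of_lt_one hs0.le hs1] at h1

/-- Exceptional classes, constant on dyadic ranges. -/
theorem dy_sets (ε : ℝ) (hε : 0 < ε) (hε1 : ε < 1) :
    ∃ B : ℕ → (q : ℕ) → Finset (ZMod q),
      (∀ x q : ℕ, 1 ≤ x → ((B x q).card : ℝ) ≤ (q : ℝ) ^ 2 * (x : ℝ) ^ (ε - 1)) ∧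
      (∀ X q : ℕ, 1 ≤ X → ((⋃ x ∈ Set.Ici X, (B x q : Set (ZMod q))).ncard : ℝ) ≤
        (1 - (2 : ℝ) ^ (ε - 1))⁻¹ * ((q : ℝ) ^ 2 * (X : ℝ) ^ (ε - 1))) ∧
      ∀ θ : ℝ, θ < 1 → ∀ c : ℕ, ∃ x0 : ℕ, ∀ x : ℕ, x0 ≤ x → ∀ r : ℕ → ℤ,
        (∀ q ∈ Icc 1 ⌊(x : ℝ) ^ θ⌋₊, IsCoprime (r q) (q : ℤ) → (r q : ZMod q) ∉ B x q) →
        EMF θ x r ≤ x / Real.log x ^ c := by
  classical
  choose b0 hb0 using fun (x q : ℕ) => exists_topK x q (kk ε x q)
  have hcard : ∀ x q : ℕ, ((b0 x q).card : ℝ) ≤ (q : ℝ) ^ 2 * (x : ℝ) ^ (ε - 1) := by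
    intro x q
    have h1 : ((b0 x q).card : ℝ) ≤ (kk ε x q : ℝ) := by exact_mod_cast (hb0 x q).1
    exact h1.trans (Nat.floor_le (by positivity))
  have hanti : ∀ a b : ℝ, 0 < a → a ≤ b → b ^ (ε - 1) ≤ a ^ (ε - 1) := fun a b ha hab =>
    Real.rpow_le_rpow_of_nonpos ha hab (by linarith)
  refine ⟨fun x q => b0 (dy x) q, ?_, ?_, ?_⟩
  · intro x q hx
    refine (hcard (dy x) q).trans (mul_le_mul_of_nonneg_left ?_ (by positivity))
    exact hanti _ _ (by exact_mod_cast hx) (by exact_mod_cast le_dy x)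
  · intro X q hX
    -- beyond `J1` all sets are empty
    obtain ⟨J, hJ⟩ : ∃ J : ℕ, ∀ j : ℕ, J ≤ j → b0 (2 ^ j) q = ∅ := by
      have h1 : Filter.Tendsto (fun j : ℕ => (q : ℝ) ^ 2 * ((2 : ℝ) ^ (ε - 1)) ^ j) Filter.atTop (nhds ((q : ℝ) ^ 2 * 0)) :=
        (tendsto_pow_atTop_nhds_zero_of_lt_one (by positivity)
          (Real.rpow_lt_one_of_one_lt_of_neg (by norm_num) (by linarith))).const_mul _
      rw [mul_zero] at h1
      obtain ⟨J, hJ⟩ := Filter.eventually_atTop.1 (h1.eventually (gt_mem_nhds (show (0 : ℝ) < 1 by norm_num)))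
      refine ⟨J, fun j hj => ?_⟩
      have h2 := hcard (2 ^ j) q
      have h3 : (((2 ^ j : ℕ) : ℝ)) ^ (ε - 1) = ((2 : ℝ) ^ (ε - 1)) ^ j := by
        rw [Nat.cast_pow, Nat.cast_ofNat, ← Real.rpow_natCast, ← Real.rpow_natCast, ← Real.rpow_mul (by norm_num),
          ← Real.rpow_mul (by norm_num), mul_comm]
      rw [h3] at h2
      have h4 : ((b0 (2 ^ j) q).card : ℝ) < 1 := lt_of_le_of_lt h2 (hJ j hj)
      have h5 : (b0 (2 ^ j) q).card < 1 := by exact_mod_cast h4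
      exact card_eq_zero.1 (by omega)
    set N := Nat.clog 2 X with hN
    have hsub : (⋃ x ∈ Set.Ici X, ((fun x q => b0 (dy x) q) x q : Set (ZMod q))) ⊆
        (((Ico N (N + J)).biUnion (fun j => b0 (2 ^ j) q) : Finset (ZMod q)) : Set (ZMod q)) := by
      intro z hz
      simp only [Set.mem_iUnion, Set.mem_Ici, mem_coe] at hz
      obtain ⟨x, hx, hz⟩ := hz
      rw [mem_coe, mem_biUnion]
      refine ⟨Nat.clog 2 x, ?_, hz⟩
      rw [mem_Ico]
      refine ⟨Nat.clog_mono_right 2 hx, ?_⟩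
      by_contra hcon
      push Not at hcon
      have h1 := hJ (Nat.clog 2 x) (by omega)
      unfold dy at hz
      rw [h1] at hz
      exact absurd hz (notMem_empty _)
    have h1 : (⋃ x ∈ Set.Ici X, ((fun x q => b0 (dy x) q) x q : Set (ZMod q))).ncard ≤
        ((Ico N (N + J)).biUnion (fun j => b0 (2 ^ j) q)).card := by
      refine (Set.ncard_le_ncard hsub (finite_toSet _)).trans ?_
      rw [Set.ncard_coe_finset]
    have h2 : (((Ico N (N + J)).biUnion (fun j => b0 (2 ^ j) q)).card : ℝ) ≤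
        ∑ j ∈ Ico N (N + J), ((b0 (2 ^ j) q).card : ℝ) := by
      exact_mod_cast card_biUnion_le
    have h3 : ∑ j ∈ Ico N (N + J), ((b0 (2 ^ j) q).card : ℝ) ≤ ∑ j ∈ Ico N (N + J), (q : ℝ) ^ 2 * ((2 : ℝ) ^ j) ^ (ε - 1) := by
      refine sum_le_sum fun j _ => ?_
      have h4 := hcard (2 ^ j) q
      rwa [Nat.cast_pow, Nat.cast_ofNat] at h4
    have h4 := dy_geo ε hε1 N J
    have h5 : ((2 : ℝ) ^ N) ^ (ε - 1) ≤ (X : ℝ) ^ (ε - 1) := by
      refine hanti _ _ (by exact_mod_cast hX) ?_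
      have h6 : X ≤ 2 ^ N := le_dy X
      exact_mod_cast h6
    have hs1 : (2 : ℝ) ^ (ε - 1) < 1 := Real.rpow_lt_one_of_one_lt_of_neg (by norm_num) (by linarith)
    have hK : 0 ≤ (1 - (2 : ℝ) ^ (ε - 1))⁻¹ := inv_nonneg.2 (by linarith)
    have h6 : ((⋃ x ∈ Set.Ici X, ((fun x q => b0 (dy x) q) x q : Set (ZMod q))).ncard : ℝ) ≤
        (((Ico N (N + J)).biUnion (fun j => b0 (2 ^ j) q)).card : ℝ) := by exact_mod_cast h1
    refine h6.trans (h2.trans (h3.trans ?_))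
    rw [← mul_sum]
    calc (q : ℝ) ^ 2 * ∑ j ∈ Ico N (N + J), ((2 : ℝ) ^ j) ^ (ε - 1) ≤
          (q : ℝ) ^ 2 * (((2 : ℝ) ^ N) ^ (ε - 1) * (1 - (2 : ℝ) ^ (ε - 1))⁻¹) := mul_le_mul_of_nonneg_left h4 (by positivity)
      _ ≤ (q : ℝ) ^ 2 * ((X : ℝ) ^ (ε - 1) * (1 - (2 : ℝ) ^ (ε - 1))⁻¹) :=
          mul_le_mul_of_nonneg_left (mul_le_mul_of_nonneg_right h5 hK) (by positivity)
      _ = (1 - (2 : ℝ) ^ (ε - 1))⁻¹ * ((q : ℝ) ^ 2 * (X : ℝ) ^ (ε - 1)) := by ring
  · intro θ hθ c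
    obtain ⟨x1, hx1⟩ := top_sets θ ε hθ hε (c + 1)
    obtain ⟨x2, hx2⟩ := Filter.eventually_atTop.1 ((Real.tendsto_log_atTop.comp
      tendsto_natCast_atTop_atTop).eventually_ge_atTop (2 : ℝ))
    refine ⟨max (max x1 x2) 2, fun x hx r hr => ?_⟩
    have hxx1 : x1 ≤ x := (le_max_left _ _).trans ((le_max_left _ _).trans hx)
    have hxx2 : x2 ≤ x := (le_max_right _ _).trans ((le_max_left _ _).trans hx)
    have hx2' : 2 ≤ x := (le_max_right _ _).trans hx
    have hL : (2 : ℝ) ≤ Real.log x := hx2 x hxx2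
    set Y := dy x with hY
    have hxY : x ≤ Y := le_dy x
    have hYx : Y ≤ 2 * x := dy_le x (by omega)
    have hxr : (2 : ℝ) ≤ x := by exact_mod_cast hx2'
    have hYr : (x : ℝ) ≤ Y := by exact_mod_cast hxY
    have hYr2 : (Y : ℝ) ≤ 2 * x := by exact_mod_cast hYx
    set r' : ℕ → ℤ := fun q => if q ≤ ⌊(x : ℝ) ^ θ⌋₊ then r q else 0 with hr'
    have hB1 : ∀ q : ℕ, 1 ≤ q → (q : ℝ) ≤ (Y : ℝ) ^ θ → IsCoprime (r' q) (q : ℤ) → ((r' q : ℤ) : ZMod q) ∉ b0 Y q := by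
      intro q hq1 _ hcop
      by_cases h1 : q ≤ ⌊(x : ℝ) ^ θ⌋₊
      · have h2 : r' q = r q := if_pos h1
        rw [h2] at hcop ⊢
        exact hr q (mem_Icc.2 ⟨hq1, h1⟩) hcop
      · have h2 : r' q = 0 := if_neg h1
        rw [h2, isCoprime_zero_left] at hcop
        have h3 : q = 1 := by
          rcases Int.isUnit_iff.1 hcop with h3 | h3 <;> omega
        have h4 : b0 Y q = ∅ := by
          have h5 := hcard Y q
          rw [h3, Nat.cast_one, one_pow, one_mul] at h5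
          have h6 : (Y : ℝ) ^ (ε - 1) < 1 := Real.rpow_lt_one_of_one_lt_of_neg (by linarith) (by linarith)
          have h7 : ((b0 Y 1).card : ℝ) < 1 := lt_of_le_of_lt h5 h6
          have h8 : (b0 Y 1).card < 1 := by exact_mod_cast h7
          subst h3
          exact card_eq_zero.1 (by omega)
        rw [h4]
        exact notMem_empty _
    have h1 := hx1 Y (hxx1.trans hxY) (b0 Y) (fun q => hb0 Y q) r' hB1
    have h2 : EMF θ x r ≤ EMF θ Y r' := by
      by_cases hθ0 : θ < 0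
      · have h3 : ⌊(x : ℝ) ^ θ⌋₊ = 0 := by
          rw [Nat.floor_eq_zero]
          exact Real.rpow_lt_one_of_one_lt_of_neg (by linarith) hθ0
        have h4 : EMF θ x r = 0 := by
          unfold EMF
          rw [h3]
          simp
        rw [h4]
        exact sum_nonneg fun q _ => ME_nonneg _ _ _
      · push Not at hθ0
        have hfl : ⌊(x : ℝ) ^ θ⌋₊ ≤ ⌊(Y : ℝ) ^ θ⌋₊ :=
          Nat.floor_le_floor (Real.rpow_le_rpow (by linarith) hYr hθ0)
        unfold EMF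
        refine le_trans ?_ (sum_le_sum_of_subset_of_nonneg
          (s := (Icc 1 ⌊(x : ℝ) ^ θ⌋₊).filter (fun q : ℕ => IsCoprime (r' q) (q : ℤ))) ?_ fun q _ _ => ME_nonneg _ _ _)
        · have h3 : (Icc 1 ⌊(x : ℝ) ^ θ⌋₊).filter (fun q : ℕ => IsCoprime (r' q) (q : ℤ)) =
              (Icc 1 ⌊(x : ℝ) ^ θ⌋₊).filter (fun q : ℕ => IsCoprime (r q) (q : ℤ)) := by
            refine filter_congr fun q hq => ?_
            have h4 : r' q = r q := if_pos (mem_Icc.1 hq).2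
            rw [h4]
          rw [h3]
          refine sum_le_sum fun q hq => ?_
          have h4 : r' q = r q := if_pos (mem_Icc.1 (mem_filter.1 hq).1).2
          rw [h4]
          exact ME_mono _ _ _ _ hxY
        · exact filter_subset_filter _ (Icc_subset_Icc le_rfl hfl)
    refine h2.trans (h1.trans ?_)
    have hLY : Real.log x ≤ Real.log Y := Real.log_le_log (by linarith) hYr
    have hL0 : 0 < Real.log x := by linarith
    calc (Y : ℝ) / Real.log Y ^ (c + 1) ≤ (2 * x) / Real.log x ^ (c + 1) :=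
          div_le_div₀ (by positivity) hYr2 (by positivity) (pow_le_pow_left₀ hL0.le hLY _)
      _ = (2 / Real.log x) * (x / Real.log x ^ c) := by
          rw [pow_succ]
          field_simp
      _ ≤ 1 * (x / Real.log x ^ c) := by
          refine mul_le_mul_of_nonneg_right ?_ (by positivity)
          rw [div_le_one hL0]
          exact hL
      _ = x / Real.log x ^ c := one_mul _

end Pool.Agent.H35.FX
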