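import Pool.Agent.H35.FX.Me

/-!
# FX Fn: all but few of the members of a family of residue functions

`EMF θ x r`: the sum over `q ≤ x^θ` with `(r(q), q) = 1` of the maximal error (over `y ≤ x`) of the class `r(q) mod q`.
`agree θ ε x r s`: the sum of the `q ≤ x^θ`, `q > x^((1-ε)/2)`, with `r(q) ≡ s(q) mod q`, `(r(q), q) = 1`.

For every dyadic block `(Q, 2Q]` the functions are divided into groups of at most `H = max(1, Q^2 x^(ε-1))` (`grp`), and `me_block` is applied
to each group: the number of coincidences is at most `Q H + H^2 x^(1-ε)/Q ≤ 2 Q H`.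
-/

set_option autoImplicit false

namespace Pool.Agent.H35.FX

open Finset
open Pool.Agent.H91.EHA (err err_one dyadic_cover)
open Pool.Agent.H80.KF (ME grid phi_inv_sum)

/-- the sum over the moduli `q ≤ x^θ` prime to `r(q)` of the largest error up to `x` in the class `r(q)` -/
noncomputable def EMF (θ : ℝ) (x : ℕ) (r : ℕ → ℤ) : ℝ :=
  ∑ q ∈ (Icc 1 ⌊(x : ℝ) ^ θ⌋₊).filter (fun q : ℕ => IsCoprime (r q) (q : ℤ)), ME x q ((r q : ℤ) : ZMod q)

/-- the sum of the moduli where `r` and `s` agree -/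
noncomputable def agree (θ ε : ℝ) (x : ℕ) (r s : ℕ → ℤ) : ℝ :=
  ∑ q ∈ (Icc 1 ⌊(x : ℝ) ^ θ⌋₊).filter (fun q : ℕ => (x : ℝ) ^ ((1 - ε) / 2) < q ∧ (q : ℤ) ∣ r q - s q ∧ IsCoprime (r q) (q : ℤ)), (q : ℝ)

variable {ι : Type*}

/-- the representative of `r(q)` -/
private def rep (r : ι → ℕ → ℤ) (e : ι → ℕ) (q : ℕ) (i : ι) : ℕ := (r i q % q).toNat + q * e i

private theorem rep_lt (r : ι → ℕ → ℤ) (q : ℕ) (hq : 1 ≤ q) (i : ι) : (r i q % q).toNat < q := by
  have h1 : r i q % q < q := Int.emod_lt_of_pos _ (by exact_mod_cast hq)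
  have h2 : 0 ≤ r i q % q := Int.emod_nonneg _ (by omega)
  omega

private theorem rep_cast (r : ι → ℕ → ℤ) (e : ι → ℕ) (q : ℕ) (hq : 1 ≤ q) (i : ι) : ((rep r e q i : ℕ) : ZMod q) = ((r i q : ℤ) : ZMod q) := by
  unfold rep
  push_cast
  rw [ZMod.natCast_self, zero_mul, add_zero]
  have h2 : 0 ≤ r i q % q := Int.emod_nonneg _ (by omega)
  have h3 : (((r i q % q).toNat : ℕ) : ZMod q) = (((r i q % q).toNat : ℤ) : ZMod q) := by norm_cast
  rw [h3, Int.toNat_of_nonneg h2, ZMod.intCast_mod]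

private theorem rep_inj (r : ι → ℕ → ℤ) (e : ι → ℕ) (q : ℕ) (hq : 1 ≤ q) {i j : ι} (h : rep r e q i = rep r e q j) : e i = e j := by
  unfold rep at h
  have h1 := rep_lt r q hq i
  have h2 := rep_lt r q hq j
  have h3 : ((r i q % q).toNat + q * e i) / q = e i := by
    rw [Nat.add_mul_div_left _ _ (by omega), Nat.div_eq_of_lt h1, zero_add]
  have h4 : ((r j q % q).toNat + q * e j) / q = e j := by
    rw [Nat.add_mul_div_left _ _ (by omega), Nat.div_eq_of_lt h2, zero_add]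
  rw [← h3, ← h4, h]

private theorem rep_cop (r : ι → ℕ → ℤ) (e : ι → ℕ) (q : ℕ) (hq : 1 ≤ q) (i : ι) : Nat.Coprime (rep r e q i) q ↔ IsCoprime (r i q) (q : ℤ) := by
  have h1 : (rep r e q i : ℤ) % q = r i q % q := by
    have h2 := rep_cast r e q hq i
    have h3 : (((rep r e q i : ℕ) : ℤ) : ZMod q) = ((r i q : ℤ) : ZMod q) := by
      rw [← h2]
      norm_cast
    exact (ZMod.intCast_eq_intCast_iff' _ _ _).1 h3
  rw [← Nat.isCoprime_iff_coprime]
  obtain ⟨k, hk⟩ : (q : ℤ) ∣ (rep r e q i : ℤ) - r i q := Int.dvd_of_emod_eq_zero (Int.emod_eq_emod_iff_emod_sub_eq_zero.1 h1)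
  have h2 : (rep r e q i : ℤ) = r i q + q * k := by linarith
  rw [h2]
  exact IsCoprime.add_mul_left_left_iff

private theorem rep_mod (r : ι → ℕ → ℤ) (e : ι → ℕ) (q : ℕ) (hq : 1 ≤ q) {i j : ι} (h : rep r e q i ≡ rep r e q j [MOD q]) : (q : ℤ) ∣ r i q - r j q := by
  have h1 : ((rep r e q i : ℕ) : ZMod q) = ((rep r e q j : ℕ) : ZMod q) := (ZMod.natCast_eq_natCast_iff _ _ _).2 h
  rw [rep_cast r e q hq, rep_cast r e q hq] at h1
  have h2 := (ZMod.intCast_eq_intCast_iff_dvd_sub _ _ _).1 h1.symm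
  exact h2

/-- sums over groups -/
theorem grp (f : ι → ℝ) (k : ℕ) (hk : 1 ≤ k) (B : ℝ) (hB : 0 ≤ B) (F : Finset ι) (h : ∀ G ⊆ F, G.card ≤ k → ∑ i ∈ G, f i ≤ B) :
    ∑ i ∈ F, f i ≤ ((F.card : ℝ) / k + 1) * B := by
  classical
  have hk0 : (0 : ℝ) < k := by exact_mod_cast hk
  induction hn : F.card using Nat.strong_induction_on generalizing F with
  | _ n ih =>
    by_cases hF : F.card ≤ k
    · refine (h F Subset.rfl hF).trans ?_
      have h1 : 0 ≤ (n : ℝ) / k := by positivity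
      nlinarith
    · push Not at hF
      obtain ⟨G, hGF, hG⟩ := Finset.exists_subset_card_eq hF.le
      have h1 := h G hGF hG.le
      have hcard : (F \ G).card = n - k := by
        rw [card_sdiff_of_subset hGF, hG, hn]
      have h2 := ih (n - k) (by omega) (F \ G) (fun G' hG' hc => h G' (hG'.trans sdiff_subset) hc) hcard
      have h3 := Finset.sum_sdiff (f := f) hGF
      have h4 : ((n - k : ℕ) : ℝ) = n - k := by
        rw [Nat.cast_sub (by omega)]
      rw [h4] at h2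
      have h5 : ((n : ℝ) - k) / k = n / k - 1 := by
        field_simp
      rw [h5] at h2
      have h6 : ((n : ℝ) / k - 1 + 1) * B + B = ((n : ℝ) / k + 1) * B := by ring
      linarith

/-- one group of functions in one dyadic block -/
private theorem fn_group {θ ε : ℝ} {x Q M : ℕ} (hx : 1 ≤ x) (hQ1 : 1 ≤ Q) {H B : ℝ} (hH : H = max 1 ((Q : ℝ) ^ 2 * (x : ℝ) ^ (ε - 1)))
    (hM : M = ⌊(x : ℝ) ^ θ⌋₊) (r : ι → ℕ → ℤ) (F : Finset ι)
    (hF : ∀ i ∈ F, ∀ j ∈ F, i ≠ j → agree θ ε x (r i) (r j) ≤ (x : ℝ) ^ (1 - ε))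
    (hb : ∀ S : ℕ → Finset ℕ, (∀ q ∈ Ioc Q (2 * Q), ((S q).card : ℝ) ≤ H) →
      (∑ q ∈ Ioc Q (2 * Q), (coll q (S q) : ℝ) ≤ 2 * Q * H) →
      ∑ q ∈ Ioc Q (2 * Q), ∑ a ∈ (S q).filter (fun a => Nat.Coprime a q), ME x q (a : ZMod q) ≤ B)
    (hc : (F.card : ℝ) ≤ H) :
    ∑ i ∈ F, ∑ q ∈ Ioc Q (2 * Q), (if q ≤ M ∧ IsCoprime (r i q) (q : ℤ) then ME x q ((r i q : ℤ) : ZMod q) else 0) ≤ B := by
  classical
  obtain ⟨e, he⟩ := Set.countable_iff_exists_injOn.1 F.countable_toSet
  have hxr : (0 : ℝ) < x := by exact_mod_cast hx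
  have hx1r : (1 : ℝ) ≤ x := by exact_mod_cast hx
  have hQr : (0 : ℝ) < Q := by exact_mod_cast hQ1
  have hH1 : 1 ≤ H := by rw [hH]; exact le_max_left _ _
  set G : ℕ → Finset ι := fun q => F.filter (fun i => q ≤ M ∧ IsCoprime (r i q) (q : ℤ)) with hG
  set S : ℕ → Finset ℕ := fun q => (G q).image (rep r e q) with hS
  have hinj : ∀ q ∈ Ioc Q (2 * Q), Set.InjOn (rep r e q) (G q : Set ι) := by
    intro q hq i hi j hj hij
    have hq1 : 1 ≤ q := by rw [mem_Ioc] at hq; omega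
    exact he (mem_filter.1 hi).1 (mem_filter.1 hj).1 (rep_inj r e q hq1 hij)
  have hcardG : ∀ q, ((G q).card : ℝ) ≤ H := by
    intro q
    refine le_trans ?_ hc
    exact_mod_cast card_le_card (filter_subset _ _)
  have h1 := hb S (fun q _ => le_trans (by exact_mod_cast card_image_le) (hcardG q)) ?_
  · refine le_trans (le_of_eq ?_) h1
    rw [sum_comm]
    refine sum_congr rfl fun q hq => ?_
    have hq1 : 1 ≤ q := by rw [mem_Ioc] at hq; omega
    rw [← sum_filter]
    have h2 : (S q).filter (fun a => Nat.Coprime a q) = S q := by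
      apply filter_true_of_mem
      intro a ha
      rw [hS] at ha
      obtain ⟨i, hi, rfl⟩ := mem_image.1 ha
      exact (rep_cop r e q hq1 i).2 (mem_filter.1 hi).2.2
    rw [h2, hS]
    show _ = ∑ a ∈ (G q).image (rep r e q), ME x q (a : ZMod q)
    rw [sum_image (hinj q hq)]
    refine sum_congr rfl fun i _ => ?_
    rw [rep_cast r e q hq1 i]
  · -- coincidences
    have h2 : ∀ q ∈ Ioc Q (2 * Q), (coll q (S q) : ℝ) ≤ H + ∑ p ∈ F.offDiag,
        (if q ≤ M ∧ (q : ℤ) ∣ r p.1 q - r p.2 q ∧ IsCoprime (r p.1 q) (q : ℤ) then (1 : ℝ) else 0) := by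
      intro q hq
      have hq1 : 1 ≤ q := by rw [mem_Ioc] at hq; omega
      have h3 : coll q (S q) ≤ (((G q) ×ˢ (G q)).filter (fun p => (q : ℤ) ∣ r p.1 q - r p.2 q)).card := by
        unfold coll
        have h4 : ((S q) ×ˢ (S q)).filter (fun p => p.1 ≡ p.2 [MOD q]) ⊆
            (((G q) ×ˢ (G q)).filter (fun p => (q : ℤ) ∣ r p.1 q - r p.2 q)).image (fun p => (rep r e q p.1, rep r e q p.2)) := by
          intro p hp
          rw [mem_filter, mem_product] at hp
          obtain ⟨⟨hp1, hp2⟩, hp3⟩ := hp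
          obtain ⟨i, hi, hi2⟩ := mem_image.1 hp1
          obtain ⟨j, hj, hj2⟩ := mem_image.1 hp2
          rw [mem_image]
          refine ⟨(i, j), ?_, Prod.ext hi2 hj2⟩
          rw [mem_filter, mem_product]
          refine ⟨⟨hi, hj⟩, ?_⟩
          rw [← hi2, ← hj2] at hp3
          exact rep_mod r e q hq1 hp3
        exact (card_le_card h4).trans card_image_le
      have h4 : ((G q) ×ˢ (G q)).filter (fun p => (q : ℤ) ∣ r p.1 q - r p.2 q) ⊆
          (G q).image (fun i => (i, i)) ∪ F.offDiag.filter (fun p => q ≤ M ∧ (q : ℤ) ∣ r p.1 q - r p.2 q ∧ IsCoprime (r p.1 q) (q : ℤ)) := by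
        intro p hp
        rw [mem_filter, mem_product] at hp
        obtain ⟨⟨hp1, hp2⟩, hp3⟩ := hp
        rw [mem_union]
        by_cases hpp : p.1 = p.2
        · left
          rw [mem_image]
          exact ⟨p.1, hp1, Prod.ext rfl hpp⟩
        · right
          rw [mem_filter, mem_offDiag]
          exact ⟨⟨(mem_filter.1 hp1).1, (mem_filter.1 hp2).1, hpp⟩, (mem_filter.1 hp1).2.1, hp3, (mem_filter.1 hp1).2.2⟩
      have h5 := (h3.trans (card_le_card h4)).trans (card_union_le _ _)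
      have h6 : ((coll q (S q) : ℕ) : ℝ) ≤ (((G q).image (fun i => (i, i))).card : ℝ) +
          ((F.offDiag.filter (fun p => q ≤ M ∧ (q : ℤ) ∣ r p.1 q - r p.2 q ∧ IsCoprime (r p.1 q) (q : ℤ))).card : ℝ) := by
        exact_mod_cast h5
      have h7 : (((G q).image (fun i => (i, i))).card : ℝ) ≤ H := le_trans (by exact_mod_cast card_image_le) (hcardG q)
      rw [card_filter] at h6
      push_cast at h6
      linarith
    refine (sum_le_sum h2).trans ?_
    rw [sum_add_distrib, sum_const, Nat.card_Ioc, nsmul_eq_mul]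
    have h8 : 2 * Q - Q = Q := by omega
    rw [h8, sum_comm]
    have h9 : ∑ p ∈ F.offDiag, ∑ q ∈ Ioc Q (2 * Q),
        (if q ≤ M ∧ (q : ℤ) ∣ r p.1 q - r p.2 q ∧ IsCoprime (r p.1 q) (q : ℤ) then (1 : ℝ) else 0) ≤ Q * H := by
      by_cases hH' : (Q : ℝ) ^ 2 * (x : ℝ) ^ (ε - 1) ≤ 1
      · -- at most one function
        have h10 : H = 1 := by rw [hH, max_eq_left hH']
        have h11 : F.card ≤ 1 := by
          rw [h10] at hc
          exact_mod_cast hc
        have h12 : F.offDiag = ∅ := by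
          rw [← card_eq_zero, offDiag_card]
          interval_cases F.card <;> rfl
        rw [h12, sum_empty]
        positivity
      · push Not at hH'
        have h10 : H = (Q : ℝ) ^ 2 * (x : ℝ) ^ (ε - 1) := by rw [hH, max_eq_right hH'.le]
        have hQbig : (x : ℝ) ^ ((1 - ε) / 2) < Q := by
          have h11 : (x : ℝ) ^ (1 - ε) < (Q : ℝ) ^ 2 := by
            have h12 : (x : ℝ) ^ (ε - 1) * (x : ℝ) ^ (1 - ε) = 1 := by
              rw [← Real.rpow_add hxr]
              norm_num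
            have h13 : (0 : ℝ) < (x : ℝ) ^ (1 - ε) := by positivity
            calc (x : ℝ) ^ (1 - ε) = 1 * (x : ℝ) ^ (1 - ε) := (one_mul _).symm
              _ < (Q : ℝ) ^ 2 * (x : ℝ) ^ (ε - 1) * (x : ℝ) ^ (1 - ε) := mul_lt_mul_of_pos_right hH' h13
              _ = (Q : ℝ) ^ 2 := by rw [mul_assoc, h12, mul_one]
          have h12 : ((x : ℝ) ^ ((1 - ε) / 2)) ^ 2 = (x : ℝ) ^ (1 - ε) := by
            rw [← Real.rpow_natCast, ← Real.rpow_mul hxr.le]
            congr 1
            push_cast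
            ring
          rw [← h12] at h11
          exact lt_of_pow_lt_pow_left₀ 2 hQr.le h11
        have h11 : ∀ p ∈ F.offDiag, ∑ q ∈ Ioc Q (2 * Q),
            (if q ≤ M ∧ (q : ℤ) ∣ r p.1 q - r p.2 q ∧ IsCoprime (r p.1 q) (q : ℤ) then (1 : ℝ) else 0) ≤ (x : ℝ) ^ (1 - ε) / Q := by
          intro p hp
          rw [mem_offDiag] at hp
          have h12 := hF p.1 hp.1 p.2 hp.2.1 hp.2.2
          rw [le_div_iff₀ hQr]
          refine le_trans ?_ h12
          rw [sum_mul]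
          unfold agree
          rw [← hM]
          calc ∑ q ∈ Ioc Q (2 * Q), (if q ≤ M ∧ (q : ℤ) ∣ r p.1 q - r p.2 q ∧ IsCoprime (r p.1 q) (q : ℤ) then (1 : ℝ) else 0) * Q
              ≤ ∑ q ∈ Ioc Q (2 * Q), (if q ≤ M ∧ (q : ℤ) ∣ r p.1 q - r p.2 q ∧ IsCoprime (r p.1 q) (q : ℤ) then (q : ℝ) else 0) := by
                refine sum_le_sum fun q hq => ?_
                rw [mem_Ioc] at hq
                have h13 : (Q : ℝ) ≤ q := by exact_mod_cast hq.1.le
                split_ifs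
                · linarith
                · linarith
            _ = ∑ q ∈ (Ioc Q (2 * Q)).filter (fun q : ℕ => q ≤ M ∧ (q : ℤ) ∣ r p.1 q - r p.2 q ∧ IsCoprime (r p.1 q) (q : ℤ)), (q : ℝ) := by
                rw [← sum_filter]
            _ ≤ ∑ q ∈ (Icc 1 M).filter (fun q : ℕ => (x : ℝ) ^ ((1 - ε) / 2) < q ∧ (q : ℤ) ∣ r p.1 q - r p.2 q ∧ IsCoprime (r p.1 q) (q : ℤ)), (q : ℝ) := by
                refine sum_le_sum_of_subset_of_nonneg ?_ fun q _ _ => Nat.cast_nonneg _
                intro q hq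
                rw [mem_filter, mem_Ioc] at hq
                rw [mem_filter, mem_Icc]
                refine ⟨⟨by omega, hq.2.1⟩, ?_, hq.2.2⟩
                refine hQbig.trans ?_
                exact_mod_cast hq.1.1
        refine (sum_le_sum h11).trans ?_
        rw [sum_const, nsmul_eq_mul]
        have h12 : (F.offDiag.card : ℝ) ≤ H * H := by
          have h13 : F.offDiag.card ≤ F.card * F.card := by
            rw [offDiag_card]
            exact Nat.sub_le _ _
          have h14 : (F.offDiag.card : ℝ) ≤ (F.card : ℝ) * F.card := by exact_mod_cast h13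
          have h15 : (0 : ℝ) ≤ F.card := Nat.cast_nonneg _
          nlinarith
        have h13 : 0 ≤ (x : ℝ) ^ (1 - ε) / Q := by positivity
        refine (mul_le_mul_of_nonneg_right h12 h13).trans (le_of_eq ?_)
        have h14 : H * ((x : ℝ) ^ (1 - ε) / Q) = Q := by
          rw [h10]
          have h15 : (x : ℝ) ^ (ε - 1) * (x : ℝ) ^ (1 - ε) = 1 := by
            rw [← Real.rpow_add hxr]
            norm_num
          calc (Q : ℝ) ^ 2 * (x : ℝ) ^ (ε - 1) * ((x : ℝ) ^ (1 - ε) / (Q : ℝ))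
              = (Q : ℝ) ^ 2 / (Q : ℝ) * ((x : ℝ) ^ (ε - 1) * (x : ℝ) ^ (1 - ε)) := by ring
            _ = (Q : ℝ) := by
                rw [h15, mul_one]
                field_simp
        rw [mul_assoc, h14, mul_comm]
    linarith

/-- large `x` -/
private theorem fn_ev (K : ℝ) : ∃ x0 : ℕ, ∀ x : ℕ, x0 ≤ x → K ≤ Real.log x ∧ 3 ≤ x := by
  have h1 : ∀ᶠ x : ℝ in Filter.atTop, K ≤ Real.log x := Real.tendsto_log_atTop.eventually_ge_atTop _
  obtain ⟨x0, hx0⟩ := Filter.eventually_atTop.1 (tendsto_natCast_atTop_atTop.eventually h1)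
  exact ⟨max x0 3, fun x hx => ⟨hx0 x ((le_max_left _ _).trans hx), (le_max_right _ _).trans hx⟩⟩

/-- In a family of residue functions which agree pairwise at few moduli at most `x^(2θ-1+ε)` violate the bound. -/
theorem few_fn (θ ε : ℝ) (hθ : θ < 1) (hε : 0 < ε) (c : ℕ) : ∃ x0 : ℕ, ∀ x : ℕ, x0 ≤ x → ∀ (ι : Type) (r : ι → ℕ → ℤ) (F : Finset ι),
    (∀ i ∈ F, ∀ j ∈ F, i ≠ j → agree θ ε x (r i) (r j) ≤ (x : ℝ) ^ (1 - ε)) →
    (∀ i ∈ F, x / Real.log x ^ c < EMF θ x (r i)) → (F.card : ℝ) ≤ (x : ℝ) ^ (2 * θ - 1 + ε) := by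
  classical
  obtain ⟨x1, hx1⟩ := me_block θ ε hθ hε (c + 3)
  obtain ⟨x2, hx2⟩ := fn_ev 4
  refine ⟨max x1 x2, fun x hx ι r F hF hbad => ?_⟩
  have hb := hx1 x ((le_max_left _ _).trans hx)
  obtain ⟨hL4, hx3⟩ := hx2 x ((le_max_right _ _).trans hx)
  by_contra hcard
  push Not at hcard
  set L := Real.log x with hLdef
  have hL0 : 0 < L := by linarith
  have hx1' : 1 ≤ x := by omega
  have hxr : (0 : ℝ) < x := by exact_mod_cast hx1'
  have hx1r : (1 : ℝ) ≤ x := by exact_mod_cast hx1'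
  have hFpos : (0 : ℝ) < F.card := lt_of_le_of_lt (by positivity) hcard
  have hF1 : (1 : ℝ) ≤ F.card := by
    have h1 : 0 < F.card := by exact_mod_cast hFpos
    exact_mod_cast h1
  set M := ⌊(x : ℝ) ^ θ⌋₊ with hM
  have hMr : (M : ℝ) ≤ (x : ℝ) ^ θ := Nat.floor_le (by positivity)
  have hMx : M ≤ x := by
    have h1 : (M : ℝ) ≤ x := by
      refine hMr.trans ?_
      calc (x : ℝ) ^ θ ≤ (x : ℝ) ^ (1 : ℝ) := Real.rpow_le_rpow_of_exponent_le hx1r hθ.le
        _ = x := Real.rpow_one _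
    exact_mod_cast h1
  set J : ℕ := Nat.log 2 x + 1 with hJ
  have hMJ : M < 2 ^ J := lt_of_le_of_lt hMx (Nat.lt_pow_succ_log_self (by norm_num) x)
  have hJL : (J : ℝ) ≤ L ^ 2 := by
    have h1 : ((Nat.log 2 x : ℕ) : ℝ) * Real.log 2 ≤ L := by
      have h2 : (2 : ℝ) ^ (Nat.log 2 x) ≤ x := by
        exact_mod_cast Nat.pow_log_le_self 2 (by omega : x ≠ 0)
      have h3 := Real.log_le_log (by positivity) h2
      rwa [Real.log_pow] at h3
    have h2 := Real.log_two_gt_d9
    have h3 : ((Nat.log 2 x : ℕ) : ℝ) ≤ 2 * L := by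
      have h4 : (0 : ℝ) ≤ ((Nat.log 2 x : ℕ) : ℝ) := by positivity
      nlinarith
    rw [hJ]
    push_cast
    nlinarith
  -- the summed function
  set f : ι → ℕ → ℝ := fun i q => if q ≤ M ∧ IsCoprime (r i q) (q : ℤ) then ME x q ((r i q : ℤ) : ZMod q) else 0 with hf
  have hf0 : ∀ i q, 0 ≤ f i q := by
    intro i q
    rw [hf]
    show 0 ≤ if q ≤ M ∧ IsCoprime (r i q) (q : ℤ) then ME x q ((r i q : ℤ) : ZMod q) else 0
    split_ifs
    · exact ME_nonneg _ _ _
    · exact le_rfl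
  have hEMF : ∀ i, EMF θ x (r i) = ∑ q ∈ (Icc 1 M).filter (fun _ => True), f i q := by
    intro i
    unfold EMF
    rw [filter_true_of_mem (fun _ _ => trivial), ← hM, sum_filter]
    refine sum_congr rfl fun q hq => ?_
    rw [mem_Icc] at hq
    rw [hf]
    show _ = if q ≤ M ∧ IsCoprime (r i q) (q : ℤ) then ME x q ((r i q : ℤ) : ZMod q) else 0
    by_cases h1 : IsCoprime (r i q) (q : ℤ)
    · rw [if_pos h1, if_pos ⟨hq.2, h1⟩]
    · rw [if_neg h1, if_neg (fun h2 => h1 h2.2)]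
  have hF1' : ∑ i ∈ F, f i 1 = 0 := by
    refine sum_eq_zero fun i _ => ?_
    rw [hf]
    show (if 1 ≤ M ∧ IsCoprime (r i 1) ((1 : ℕ) : ℤ) then ME x 1 ((r i 1 : ℤ) : ZMod 1) else 0) = 0
    split_ifs
    · unfold ME
      apply le_antisymm
      · apply Finset.sup'_le
        intro y _
        rw [err_one, abs_zero]
      · exact ME_nonneg x 1 _
    · rfl
  have hdy := dyadic_cover (fun q => ∑ i ∈ F, f i q) (fun q => Finset.sum_nonneg fun i _ => hf0 i q) M J hMJ (fun _ => True)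
    hF1' (4 * F.card * x / L ^ (c + 3)) (by positivity) (by
      intro j _ q hqM _ hjq _
      set Q := 2 ^ j with hQdef
      have hQ1 : 1 ≤ Q := Nat.one_le_two_pow
      have hQr : (Q : ℝ) ≤ (x : ℝ) ^ θ := by
        refine le_trans ?_ hMr
        exact_mod_cast (hjq.le.trans hqM)
      set H : ℝ := max 1 ((Q : ℝ) ^ 2 * (x : ℝ) ^ (ε - 1)) with hH
      have hH1 : 1 ≤ H := le_max_left _ _
      have hQH : (Q : ℝ) ^ 2 ≤ H * (x : ℝ) ^ (1 - ε) := by
        have h1 : (Q : ℝ) ^ 2 * (x : ℝ) ^ (ε - 1) * (x : ℝ) ^ (1 - ε) ≤ H * (x : ℝ) ^ (1 - ε) :=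
          mul_le_mul_of_nonneg_right (le_max_right _ _) (by positivity)
        have h2 : (x : ℝ) ^ (ε - 1) * (x : ℝ) ^ (1 - ε) = 1 := by
          rw [← Real.rpow_add hxr]
          norm_num
        rwa [mul_assoc, h2, mul_one] at h1
      have hHF : H ≤ F.card := by
        refine max_le hF1 ?_
        refine le_trans ?_ hcard.le
        calc (Q : ℝ) ^ 2 * (x : ℝ) ^ (ε - 1) ≤ ((x : ℝ) ^ θ) ^ 2 * (x : ℝ) ^ (ε - 1) :=
              mul_le_mul_of_nonneg_right (pow_le_pow_left₀ (by positivity) hQr 2) (by positivity)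
          _ = (x : ℝ) ^ (2 * θ - 1 + ε) := by
              rw [← Real.rpow_natCast, ← Real.rpow_mul hxr.le, ← Real.rpow_add hxr]
              congr 1
              push_cast
              ring
      set k := ⌊H⌋₊ with hk
      have hk1 : 1 ≤ k := by
        rw [hk, Nat.one_le_floor_iff]
        exact hH1
      have hkH : (k : ℝ) ≤ H := Nat.floor_le (by linarith)
      have hHk : H ≤ 2 * k := by
        have h1 := Nat.lt_floor_add_one H
        rw [← hk] at h1
        have h2 : (1 : ℝ) ≤ k := by exact_mod_cast hk1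
        linarith
      rw [sum_comm]
      have hg := grp (fun i => ∑ q ∈ Ioc Q (2 * Q), f i q) k hk1 (H * x / L ^ (c + 3)) (by positivity) F (by
        intro G hG hGk
        refine fn_group hx1' hQ1 hH hM r G (fun i hi j hj hij => hF i (hG hi) j (hG hj) hij)
          (fun S hS1 hS2 => hb Q H S hH1 hQ1 hQr hS1 hS2 hQH) ?_
        exact le_trans (by exact_mod_cast hGk) hkH)
      refine hg.trans ?_
      have hkr : (0 : ℝ) < k := by exact_mod_cast hk1
      have h1 : ((F.card : ℝ) / k + 1) * H ≤ 4 * F.card := by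
        have h2 : (F.card : ℝ) / k + 1 ≤ 2 * (F.card / k) := by
          have h3 : (1 : ℝ) ≤ F.card / k := by
            rw [le_div_iff₀ hkr, one_mul]
            exact hkH.trans hHF
          linarith
        have h3 : (0 : ℝ) ≤ F.card / k := by positivity
        calc ((F.card : ℝ) / k + 1) * H ≤ 2 * (F.card / k) * (2 * k) := mul_le_mul h2 hHk (by linarith) (by positivity)
          _ = 4 * F.card := by field_simp; ring
      calc ((F.card : ℝ) / k + 1) * (H * x / L ^ (c + 3)) = ((F.card : ℝ) / k + 1) * H * (x / L ^ (c + 3)) := by ring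
        _ ≤ 4 * F.card * (x / L ^ (c + 3)) := mul_le_mul_of_nonneg_right h1 (by positivity)
        _ = 4 * F.card * x / L ^ (c + 3) := by ring)
  rw [sum_comm] at hdy
  have h1 : ∑ i ∈ F, x / L ^ c < ∑ i ∈ F, EMF θ x (r i) := by
    refine sum_lt_sum_of_nonempty ?_ hbad
    rw [← card_pos]
    exact_mod_cast hFpos
  rw [sum_const, nsmul_eq_mul] at h1
  simp only [hEMF] at h1
  have h2 := h1.trans_le hdy
  have h3 : (J : ℝ) * (4 * F.card * x / L ^ (c + 3)) ≤ F.card * (x / L ^ c) := by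
    have h4 : 0 ≤ 4 * (F.card : ℝ) * x / L ^ (c + 3) := by positivity
    refine (mul_le_mul_of_nonneg_right hJL h4).trans ?_
    have h5 : L ^ 2 * (4 * (F.card : ℝ) * x / L ^ (c + 3)) = F.card * (x / L ^ c) * (4 / L) := by
      rw [pow_add]
      field_simp
    rw [h5]
    have h6 : 4 / L ≤ 1 := by
      rw [div_le_one hL0]
      exact hL4
    exact mul_le_of_le_one_right (by positivity) h6
  exact absurd (h2.trans_le h3) (lt_irrefl _)

end Pool.Agent.H35.FX
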