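import Pool.Agent.H94.EH.M36
import Pool.Agent.H94.EH.H91.EHA.GMain

/-!
# FX Me: one dyadic block, with the maximum over the endpoint

`ME x q b` (`KF.Mxb`) is the maximum over `y ≤ x` of `|err y q b|`.  `gblock` is applied at the points
`y_j = ⌊j x / G⌋`, `G = ⌈(log x)^(c+4)⌉` (`grid`), with slightly larger exponents.
-/

set_option autoImplicit false

namespace Pool.Agent.H35.FX

open Finset
open Pool.Agent.H91.EHA (err gblock Fam)
open Pool.Agent.H80.KF (ME grid phi_inv_sum)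

/-- the number of pairs of congruent elements -/
def coll (q : ℕ) (S : Finset ℕ) : ℕ := ((S ×ˢ S).filter (fun p => p.1 ≡ p.2 [MOD q])).card

theorem err_zero (q : ℕ) (b : ZMod q) : err 0 q b = 0 := by
  unfold err
  simp

theorem ME_nonneg (x q : ℕ) (b : ZMod q) : 0 ≤ ME x q b := by
  unfold ME
  have h1 : |err 0 q b| ≤ (range (x + 1)).sup' nonempty_range_add_one (fun y => |err y q b|) :=
    Finset.le_sup' (f := fun y => |err y q b|) (mem_range.2 (Nat.succ_pos x))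
  exact (abs_nonneg _).trans h1

theorem le_ME (x q y : ℕ) (b : ZMod q) (hy : y ≤ x) : |err y q b| ≤ ME x q b :=
  Finset.le_sup' (f := fun y => |err y q b|) (mem_range.2 (Nat.lt_succ_of_le hy))

/-- large `x` -/
private theorem me_ev (c : ℕ) (s K : ℝ) (hs : s < 1) : ∃ x0 : ℕ, ∀ x : ℕ, x0 ≤ x → K ≤ Real.log x ∧ 4 ≤ Real.log x ∧ 3 ≤ x ∧
    4 * Real.log x ^ (c + 4) * (x : ℝ) ^ s ≤ x := by
  have h1 : ∀ᶠ x : ℝ in Filter.atTop, max K 4 ≤ Real.log x :=
    Real.tendsto_log_atTop.eventually_ge_atTop _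
  have h2 := (isLittleO_log_rpow_rpow_atTop (((c + 4 : ℕ) : ℝ))
    (by linarith : (0 : ℝ) < 1 - s)).bound (by norm_num : (0 : ℝ) < 1 / 4)
  have h3 := tendsto_natCast_atTop_atTop.eventually (h1.and h2)
  obtain ⟨x0, hx0⟩ := Filter.eventually_atTop.1 h3
  refine ⟨max x0 3, fun x hx => ?_⟩
  obtain ⟨h4, h5⟩ := hx0 x ((le_max_left _ _).trans hx)
  have hx3 : 3 ≤ x := (le_max_right _ _).trans hx
  refine ⟨(le_max_left _ _).trans h4, (le_max_right _ _).trans h4, hx3, ?_⟩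
  have hxr : (0 : ℝ) < x := by
    have : 0 < x := by omega
    exact_mod_cast this
  have hL : 0 ≤ Real.log x := le_trans (by norm_num) ((le_max_right K 4).trans h4)
  rw [Real.rpow_natCast] at h5
  have h6 : (0 : ℝ) ≤ Real.log x ^ (c + 4) := by positivity
  have h7 : (0 : ℝ) ≤ (x : ℝ) ^ (1 - s) := by positivity
  rw [Real.norm_of_nonneg h6, Real.norm_of_nonneg h7] at h5
  have h8 : (0 : ℝ) ≤ (x : ℝ) ^ s := by positivity
  calc 4 * Real.log x ^ (c + 4) * (x : ℝ) ^ s ≤ 4 * (1 / 4 * (x : ℝ) ^ (1 - s)) * (x : ℝ) ^ s :=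
        mul_le_mul_of_nonneg_right (mul_le_mul_of_nonneg_left h5 (by norm_num)) h8
    _ = (x : ℝ) ^ (1 - s) * (x : ℝ) ^ s := by ring
    _ = x := by rw [← Real.rpow_add hxr]; norm_num

/-- the passage from the endpoints `j x / G` to all endpoints -/
private theorem me_grid (x G M : ℕ) (hx : 3 ≤ x) (hG : 1 ≤ G) (hMx : 2 * M ≤ x) {H : ℝ} (hH : 0 ≤ H)
    (T : ℕ → Finset ℕ) (hT : ∀ q ∈ Ioc M (2 * M), ((T q).card : ℝ) ≤ H) :
    ∑ q ∈ Ioc M (2 * M), ∑ a ∈ T q, ME x q (a : ZMod q) ≤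
      ∑ j ∈ range (G + 1), ∑ q ∈ Ioc M (2 * M), ∑ a ∈ T q, |err (j * x / G) q (a : ZMod q)| +
        H * (((x : ℝ) / G + 1) * (4 * Real.log x ^ 2)) := by
  have hx1 : 1 ≤ x := by omega
  have hSx : Ioc M (2 * M) ⊆ Icc 1 x := by
    intro q hq
    rw [mem_Ioc] at hq
    rw [mem_Icc]
    omega
  have h4 : 0 ≤ (x : ℝ) / G + 1 := by positivity
  have h1 : ∀ q ∈ Ioc M (2 * M), ∑ a ∈ T q, ME x q (a : ZMod q) ≤
      ∑ j ∈ range (G + 1), ∑ a ∈ T q, |err (j * x / G) q (a : ZMod q)| +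
        H * (((x : ℝ) / G + 1) * (1 / (Nat.totient q : ℝ))) := by
    intro q hq
    have hq1 : 1 ≤ q := (mem_Icc.1 (hSx hq)).1
    have e1 : ∀ a ∈ T q, ME x q (a : ZMod q) ≤
        ∑ j ∈ range (G + 1), |err (j * x / G) q (a : ZMod q)| +
          ((x : ℝ) / G + 1) * (1 / (Nat.totient q : ℝ)) := by
      intro a _
      unfold ME
      apply Finset.sup'_le
      intro y hy
      rw [mem_range] at hy
      have h2 := grid x G q hx1 hG hq1 (a : ZMod q) y (by omega)
      rw [mul_one_div]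
      exact h2
    refine (sum_le_sum e1).trans ?_
    rw [sum_add_distrib, sum_comm, sum_const, nsmul_eq_mul]
    have e3 : 0 ≤ ((x : ℝ) / G + 1) * (1 / (Nat.totient q : ℝ)) := by positivity
    have e4 := mul_le_mul_of_nonneg_right (hT q hq) e3
    linarith only [e4]
  refine (sum_le_sum h1).trans ?_
  rw [sum_add_distrib, sum_comm, ← mul_sum, ← mul_sum]
  have h3 : ∑ q ∈ Ioc M (2 * M), 1 / (Nat.totient q : ℝ) ≤ 4 * Real.log x ^ 2 :=
    (sum_le_sum_of_subset_of_nonneg hSx (fun q _ _ => by positivity)).trans (phi_inv_sum x hx)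
  have h5 : H * (((x : ℝ) / G + 1) * ∑ q ∈ Ioc M (2 * M), 1 / (Nat.totient q : ℝ)) ≤
      H * (((x : ℝ) / G + 1) * (4 * Real.log x ^ 2)) :=
    mul_le_mul_of_nonneg_left (mul_le_mul_of_nonneg_left h3 h4) hH
  linarith only [h5]

/-- One dyadic block. -/
theorem me_block (θ ε : ℝ) (hθ : θ < 1) (hε : 0 < ε) (c : ℕ) :
    ∃ x0 : ℕ, ∀ x : ℕ, x0 ≤ x → ∀ Q : ℕ, ∀ H : ℝ, ∀ S : ℕ → Finset ℕ, 1 ≤ H → 1 ≤ Q →
      (Q : ℝ) ≤ (x : ℝ) ^ θ → (∀ q ∈ Ioc Q (2 * Q), ((S q).card : ℝ) ≤ H) →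
      (∑ q ∈ Ioc Q (2 * Q), (coll q (S q) : ℝ) ≤ 2 * Q * H) →
      (Q : ℝ) ^ 2 ≤ H * (x : ℝ) ^ (1 - ε) →
      ∑ q ∈ Ioc Q (2 * Q), ∑ a ∈ (S q).filter (fun a => Nat.Coprime a q), ME x q (a : ZMod q) ≤
        H * x / Real.log x ^ c := by
  -- exponents
  obtain ⟨t, ht0, ht1, htθ⟩ : ∃ t : ℝ, 1 / 2 ≤ t ∧ t < 1 ∧ θ ≤ t :=
    ⟨max θ (1 / 2), le_max_right _ _, max_lt hθ (by norm_num), le_max_left _ _⟩
  obtain ⟨e, he0, he1, he2⟩ : ∃ e : ℝ, 0 < e ∧ e ≤ ε / 2 ∧ e ≤ (1 - t) / 2 :=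
    ⟨min (ε / 2) ((1 - t) / 2), lt_min (by linarith) (by linarith), min_le_left _ _, min_le_right _ _⟩
  have he3 : e ≤ 1 / 4 := by linarith
  obtain ⟨t', ht'⟩ : ∃ t' : ℝ, t' = (1 + t) / 2 := ⟨_, rfl⟩
  have ht'1 : t' < 1 := by rw [ht']; linarith
  have ht'0 : t < t' := by rw [ht']; linarith
  have het' : e ≤ 1 - t' := by rw [ht']; linarith
  have ht'pos : 0 < t' := by linarith
  obtain ⟨s, hs0, hs1, hs2, hs3⟩ : ∃ s : ℝ, 0 < s ∧ s < 1 ∧ t ≤ s * t' ∧ 1 - 2 * e ≤ s * (1 - e) := by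
    refine ⟨max (t / t') ((1 - 2 * e) / (1 - e)), ?_, ?_, ?_, ?_⟩
    · exact lt_of_lt_of_le (by positivity) (le_max_left _ _)
    · refine max_lt ?_ ?_
      · rw [div_lt_one ht'pos]
        exact ht'0
      · rw [div_lt_one (by linarith)]
        linarith
    · rw [← div_le_iff₀ ht'pos]
      exact le_max_left _ _
    · rw [← div_le_iff₀ (by linarith)]
      exact le_max_right _ _
  obtain ⟨c', hc'⟩ : ∃ c' : ℕ, c' = 2 * c + 8 := ⟨_, rfl⟩
  obtain ⟨y0, hy0⟩ := gblock t' e ht'1 he0 (by linarith) het' c'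
  -- the constant
  obtain ⟨K, hK1, hK2, hK3⟩ : ∃ K : ℝ, 4 / s ^ c' ≤ K ∧ 64 ≤ K ∧ Real.log (y0 + 1) / s + 8 * Real.log 2 / (e * s) ≤ K :=
    ⟨max (4 / s ^ c') (max 64 (Real.log (y0 + 1) / s + 8 * Real.log 2 / (e * s))), le_max_left _ _,
      (le_max_left _ _).trans (le_max_right _ _), (le_max_right _ _).trans (le_max_right _ _)⟩
  obtain ⟨x1, hx1⟩ := me_ev c (max s t) K (max_lt hs1 ht1)
  refine ⟨x1, fun x hx Q H S hH hQ1 hQ hS hcoll hQH => ?_⟩
  obtain ⟨hLK, hL4, hx3, hLx⟩ := hx1 x hx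
  have hxr : (0 : ℝ) < x := by
    have : 0 < x := by omega
    exact_mod_cast this
  have hx1r : (1 : ℝ) ≤ x := by
    have : 1 ≤ x := by omega
    exact_mod_cast this
  have hH0 : 0 ≤ H := by linarith
  set L := Real.log x with hLdef
  have hL0 : 0 < L := by linarith only [hL4]
  have hLp0 : 0 < L ^ (c + 4) := by positivity
  have hLp1 : 1 ≤ L ^ (c + 4) := one_le_pow₀ (by linarith only [hL4])
  have hxs : 4 * L ^ (c + 4) * (x : ℝ) ^ s ≤ x := by
    refine le_trans ?_ hLx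
    exact mul_le_mul_of_nonneg_left (Real.rpow_le_rpow_of_exponent_le hx1r (le_max_left _ _)) (by positivity)
  have hxt : 4 * L ^ (c + 4) * (x : ℝ) ^ t ≤ x := by
    refine le_trans ?_ hLx
    exact mul_le_mul_of_nonneg_left (Real.rpow_le_rpow_of_exponent_le hx1r (le_max_right _ _)) (by positivity)
  set G := ⌈L ^ (c + 4)⌉₊ with hGdef
  have hG1 : L ^ (c + 4) ≤ G := Nat.le_ceil _
  have hG2 : (G : ℝ) ≤ 2 * L ^ (c + 4) := by
    have h1 := (Nat.ceil_lt_add_one hLp0.le).le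
    rw [← hGdef] at h1
    linarith
  have hGpos : 1 ≤ G := by
    have h1 : (1 : ℝ) ≤ G := hLp1.trans hG1
    exact_mod_cast h1
  have hGr : (0 : ℝ) < G := by exact_mod_cast hGpos
  have hxs1 : (1 : ℝ) ≤ (x : ℝ) ^ s := Real.one_le_rpow hx1r hs0.le
  have hQt : (Q : ℝ) ≤ (x : ℝ) ^ t := hQ.trans (Real.rpow_le_rpow_of_exponent_le hx1r htθ)
  have h2Q : 2 * Q ≤ x := by
    have h1 : (2 : ℝ) * Q ≤ x := by
      have h2 : (x : ℝ) ^ t ≤ L ^ (c + 4) * (x : ℝ) ^ t := by
        have h3 : (0 : ℝ) ≤ (x : ℝ) ^ t := by positivity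
        nlinarith
      nlinarith
    exact_mod_cast h1
  have hmain := me_grid x G Q hx3 hGpos h2Q hH0 (fun q => (S q).filter (fun a => Nat.Coprime a q))
    (fun q hq => le_trans (by exact_mod_cast card_le_card (filter_subset _ _)) (hS q hq))
  refine hmain.trans ?_
  -- each endpoint
  have hpt : ∀ j ∈ range (G + 1), ∑ q ∈ Ioc Q (2 * Q), ∑ a ∈ (S q).filter (fun a => Nat.Coprime a q),
      |err (j * x / G) q (a : ZMod q)| ≤ H * x / (s ^ c' * L ^ c') := by
    intro j hj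
    rcases Nat.eq_zero_or_pos j with hj0 | hj0
    · rw [hj0]
      have h1 : ∑ q ∈ Ioc Q (2 * Q), ∑ a ∈ (S q).filter (fun a => Nat.Coprime a q),
          |err (0 * x / G) q (a : ZMod q)| = 0 := by
        refine sum_eq_zero fun q _ => sum_eq_zero fun a _ => ?_
        rw [zero_mul, Nat.zero_div, err_zero, abs_zero]
      rw [h1]
      positivity
    · set y := j * x / G with hydef
      have hyx : y ≤ x := by
        rw [mem_range] at hj
        rw [hydef]
        apply Nat.div_le_of_le_mul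
        exact Nat.mul_le_mul_right x (by omega)
      have hy1 : (x : ℝ) ^ s ≤ y := by
        have h1 : x / G ≤ y := by
          rw [hydef]
          exact Nat.div_le_div_right (Nat.le_mul_of_pos_left x hj0)
        have h2 : (x : ℝ) / G - 1 ≤ ((x / G : ℕ) : ℝ) := by
          have h3 : (x : ℝ) / G < ((x / G : ℕ) : ℝ) + 1 := by
            rw [div_lt_iff₀ hGr]
            have h4 : x < (x / G + 1) * G := by
              have := Nat.lt_div_mul_add (a := x) (b := G) (by omega)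
              rw [Nat.add_mul, Nat.one_mul]
              exact this
            exact_mod_cast h4
          linarith
        have h3 : 2 * (x : ℝ) ^ s ≤ (x : ℝ) / G := by
          rw [le_div_iff₀ hGr]
          have h5 : (0 : ℝ) ≤ (x : ℝ) ^ s := by positivity
          calc 2 * (x : ℝ) ^ s * G ≤ 2 * (x : ℝ) ^ s * (2 * L ^ (c + 4)) :=
                mul_le_mul_of_nonneg_left hG2 (by positivity)
            _ = 4 * L ^ (c + 4) * (x : ℝ) ^ s := by ring
            _ ≤ x := hxs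
        have h4 : ((x / G : ℕ) : ℝ) ≤ y := by exact_mod_cast h1
        linarith
      have hyr : (1 : ℝ) ≤ y := hxs1.trans hy1
      have hyr0 : (0 : ℝ) < y := by linarith
      have hlogy : s * L ≤ Real.log y := by
        have h1 := Real.log_le_log (by positivity) hy1
        rwa [Real.log_rpow hxr] at h1
      have hyy0 : y0 ≤ y := by
        have h1 : Real.log (y0 + 1) ≤ s * L := by
          have h2 : Real.log (y0 + 1) / s ≤ L := by
            have h3 : 0 ≤ 8 * Real.log 2 / (e * s) := by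
              have := Real.log_nonneg (by norm_num : (1 : ℝ) ≤ 2)
              positivity
            linarith
          rw [div_le_iff₀ hs0] at h2
          linarith
        have h2 := h1.trans hlogy
        rw [Real.log_le_log_iff (by positivity) hyr0] at h2
        have h3 : ((y0 + 1 : ℕ) : ℝ) ≤ y := by push_cast; exact h2
        have h4 : y0 + 1 ≤ y := by exact_mod_cast h3
        omega
      have hQy : (Q : ℝ) ≤ (y : ℝ) ^ t' := by
        refine hQt.trans ?_
        calc (x : ℝ) ^ t ≤ (x : ℝ) ^ (s * t') := Real.rpow_le_rpow_of_exponent_le hx1r hs2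
          _ = ((x : ℝ) ^ s) ^ t' := by rw [Real.rpow_mul hxr.le]
          _ ≤ (y : ℝ) ^ t' := Real.rpow_le_rpow (by positivity) hy1 ht'pos.le
      have hQHy : (Q : ℝ) ^ 2 ≤ H * (y : ℝ) ^ (1 - e) := by
        refine hQH.trans (mul_le_mul_of_nonneg_left ?_ hH0)
        calc (x : ℝ) ^ (1 - ε) ≤ (x : ℝ) ^ (s * (1 - e)) :=
              Real.rpow_le_rpow_of_exponent_le hx1r (by linarith)
          _ = ((x : ℝ) ^ s) ^ (1 - e) := by rw [Real.rpow_mul hxr.le]
          _ ≤ (y : ℝ) ^ (1 - e) := Real.rpow_le_rpow (by positivity) hy1 (by linarith)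
      have hFam : Fam y Q e H S := by
        refine ⟨hS, hcoll.trans ?_⟩
        have h1 : (2 : ℝ) ≤ (y : ℝ) ^ (e / 8) := by
          rw [← Real.log_le_log_iff (by norm_num) (by positivity), Real.log_rpow hyr0]
          have h2 : 8 * Real.log 2 / (e * s) ≤ L := by
            have h3 : 0 ≤ Real.log (y0 + 1) / s := by
              have h4 : (0 : ℝ) ≤ y0 := Nat.cast_nonneg _
              have := Real.log_nonneg (by linarith : (1 : ℝ) ≤ y0 + 1)
              positivity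
            linarith
          rw [div_le_iff₀ (by positivity)] at h2
          have h3 : e / 8 * (s * L) ≤ e / 8 * Real.log y := mul_le_mul_of_nonneg_left hlogy (by positivity)
          linarith
        have h2 : (0 : ℝ) ≤ Q * H := by positivity
        have h3 : (0 : ℝ) ≤ H ^ 2 := by positivity
        have h4 : (Q * H + H ^ 2) * 2 ≤ (Q * H + H ^ 2) * (y : ℝ) ^ (e / 8) :=
          mul_le_mul_of_nonneg_left h1 (by positivity)
        linarith
      have h1 := hy0 y hyy0 Q H S hH hQ1 hQy hFam hQHy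
      refine h1.trans ?_
      have h2 : s ^ c' * L ^ c' ≤ Real.log y ^ c' := by
        rw [← mul_pow]
        exact pow_le_pow_left₀ (by positivity) hlogy c'
      have h3 : (y : ℝ) ≤ x := by exact_mod_cast hyx
      exact div_le_div₀ (by positivity) (mul_le_mul_of_nonneg_left h3 hH0) (by positivity) h2
  have hsum := sum_le_sum hpt
  rw [sum_const, card_range, nsmul_eq_mul] at hsum
  -- final computation
  have hA : ((G + 1 : ℕ) : ℝ) * (H * x / (s ^ c' * L ^ c')) ≤ H * x / L ^ c / 2 := by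
    have h1 : ((G + 1 : ℕ) : ℝ) ≤ 4 * L ^ (c + 4) := by
      push_cast
      linarith
    have h2 : 0 ≤ H * x / (s ^ c' * L ^ c') := by positivity
    have h3 : L ^ c' = L ^ (c + 4) * (L ^ c * L ^ 4) := by
      rw [hc', ← pow_add, ← pow_add]
      congr 1
      omega
    have h4 : 4 / s ^ c' ≤ L := hK1.trans hLK
    have h5 : 4 * L ^ (c + 4) * (H * x / (s ^ c' * L ^ c')) = (4 / s ^ c') * (H * x / L ^ c) / L ^ 4 := by
      rw [h3]
      field_simp
    have h6 : 0 ≤ H * x / L ^ c := by positivity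
    have h7 : (4 / s ^ c') * (H * x / L ^ c) / L ^ 4 ≤ L * (H * x / L ^ c) / L ^ 4 := by
      gcongr
    have h8 : L * (H * x / L ^ c) / L ^ 4 ≤ H * x / L ^ c / 2 := by
      rw [div_le_iff₀ (by positivity)]
      have h9 : 2 * L ≤ L ^ 4 := by
        have h10 : (64 : ℝ) ≤ L ^ 3 := by
          calc (64 : ℝ) = 4 ^ 3 := by norm_num
            _ ≤ L ^ 3 := pow_le_pow_left₀ (by norm_num) hL4 3
        calc 2 * L ≤ 64 * L := by linarith
          _ ≤ L ^ 3 * L := mul_le_mul_of_nonneg_right h10 hL0.le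
          _ = L ^ 4 := by ring
      calc L * (H * x / L ^ c) = H * x / L ^ c / 2 * (2 * L) := by ring
        _ ≤ H * x / L ^ c / 2 * L ^ 4 := mul_le_mul_of_nonneg_left h9 (by positivity)
    calc ((G + 1 : ℕ) : ℝ) * (H * x / (s ^ c' * L ^ c')) ≤ 4 * L ^ (c + 4) * (H * x / (s ^ c' * L ^ c')) :=
          mul_le_mul_of_nonneg_right h1 h2
      _ = (4 / s ^ c') * (H * x / L ^ c) / L ^ 4 := h5
      _ ≤ _ := h7.trans h8
  have hB : H * (((x : ℝ) / G + 1) * (4 * L ^ 2)) ≤ H * x / L ^ c / 2 := by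
    have h1 : (x : ℝ) / G ≤ x / L ^ (c + 4) := div_le_div_of_nonneg_left hxr.le hLp0 hG1
    have h2 : (1 : ℝ) ≤ x / L ^ (c + 4) := by
      rw [le_div_iff₀ hLp0, one_mul]
      nlinarith
    have h3 : (x : ℝ) / G + 1 ≤ 2 * (x / L ^ (c + 4)) := by linarith
    have h4 : H * (((x : ℝ) / G + 1) * (4 * L ^ 2)) ≤ H * (2 * (x / L ^ (c + 4)) * (4 * L ^ 2)) := by
      gcongr
    have h5 : H * (2 * (x / L ^ (c + 4)) * (4 * L ^ 2)) = (H * x / L ^ c / 2) * (16 / L ^ 2) := by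
      rw [pow_add]
      field_simp
      ring
    have h6 : 16 / L ^ 2 ≤ 1 := by
      rw [div_le_one (by positivity)]
      calc (16 : ℝ) = 4 ^ 2 := by norm_num
        _ ≤ L ^ 2 := pow_le_pow_left₀ (by norm_num) hL4 2
    have h7 : 0 ≤ H * x / L ^ c / 2 := by positivity
    rw [h5] at h4
    exact h4.trans (mul_le_of_le_one_right h7 h6)
  have hfin : H * x / L ^ c / 2 + H * x / L ^ c / 2 = H * x / L ^ c := by ring
  linarith only [hsum, hA, hB, hfin]

end Pool.Agent.H35.FX
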