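import Pool.Agent.H35.FX.Fn

/-!
# FX Qs: sets of rational numbers

`cls q α`: the class of the rational number `α` mod `q`.  `EMQ θ x α`: the sum over the `q ≤ x^θ` prime to the numerator and the denominator of
`α(q)` of the maximal error in the class of `α(q)`.  Two different rational numbers `α`, `β` agree mod `q` only if `q` divides the numerator of
`α - β`, so that for disjoint sets `A`, `B` the sum of the moduli of agreement is at most `#(A-B) x^θ τ`.
-/

set_option autoImplicit false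

namespace Pool.Agent.H35.FX

open Finset
open Pool.Agent.H91.EHA (err err_one)
open Pool.Agent.H80.KF (ME)

/-- the class of the rational number `α` mod `q` -/
def cls (q : ℕ) (α : ℚ) : ZMod q := ((α.num : ℤ) : ZMod q) * ((α.den : ℕ) : ZMod q)⁻¹

/-- the sum over the `q ≤ x^θ` prime to the numerator and the denominator of `α(q)` -/
noncomputable def EMQ (θ : ℝ) (x : ℕ) (α : ℕ → ℚ) : ℝ :=
  ∑ q ∈ (Icc 1 ⌊(x : ℝ) ^ θ⌋₊).filter (fun q : ℕ => IsCoprime ((α q).num * ((α q).den : ℤ)) (q : ℤ)), ME x q (cls q (α q))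

/-- an integer function with the same classes -/
private noncomputable def rr (α : ℕ → ℚ) (q : ℕ) : ℤ := by
  classical
  exact if IsCoprime ((α q).num * ((α q).den : ℤ)) (q : ℤ) then ((cls q (α q)).val : ℤ) else 0

private theorem den_unit (q : ℕ) (α : ℚ) (h : IsCoprime (α.num * (α.den : ℤ)) (q : ℤ)) : IsUnit ((α.den : ℕ) : ZMod q) := by
  have h1 : IsCoprime (α.den : ℤ) (q : ℤ) := h.of_mul_left_right
  exact (ZMod.isUnit_iff_coprime _ _).2 (Nat.isCoprime_iff_coprime.1 h1)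

private theorem rr_cop (α : ℕ → ℚ) (q : ℕ) (hq : 1 ≤ q) : IsCoprime (rr α q) (q : ℤ) ↔ IsCoprime ((α q).num * ((α q).den : ℤ)) (q : ℤ) := by
  have : NeZero q := ⟨by omega⟩
  unfold rr
  by_cases h : IsCoprime ((α q).num * ((α q).den : ℤ)) (q : ℤ)
  · rw [if_pos h]
    refine ⟨fun _ => h, fun _ => ?_⟩
    rw [Nat.isCoprime_iff_coprime]
    refine (ZMod.isUnit_iff_coprime _ _).1 ?_
    rw [ZMod.natCast_zmod_val]
    unfold cls
    have h1 : IsUnit (((α q).num : ℤ) : ZMod q) := by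
      have h2 : IsCoprime (α q).num (q : ℤ) := h.of_mul_left_left
      obtain ⟨u, v, huv⟩ := h2
      refine IsUnit.of_mul_eq_one ((u : ℤ) : ZMod q) ?_
      have h3 : (((u * (α q).num + v * (q : ℤ) : ℤ)) : ZMod q) = 1 := by rw [huv, Int.cast_one]
      push_cast at h3
      rw [ZMod.natCast_self, mul_zero, add_zero] at h3
      rw [mul_comm]
      exact h3
    have h4 := den_unit q (α q) h
    have h5 : IsUnit (((α q).den : ZMod q)⁻¹) := by
      refine IsUnit.of_mul_eq_one ((α q).den : ZMod q) ?_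
      exact ZMod.inv_mul_of_unit _ h4
    exact h1.mul h5
  · rw [if_neg h]
    refine ⟨fun h1 => ?_, fun h1 => absurd h1 h⟩
    rw [isCoprime_zero_left] at h1
    have h2 : q = 1 := by
      rcases Int.isUnit_iff.1 h1 with h3 | h3 <;> omega
    subst h2
    exact absurd isCoprime_one_right h

private theorem rr_cast (α : ℕ → ℚ) (q : ℕ) (hq : 1 ≤ q) (h : IsCoprime ((α q).num * ((α q).den : ℤ)) (q : ℤ)) :
    ((rr α q : ℤ) : ZMod q) = cls q (α q) := by
  have : NeZero q := ⟨by omega⟩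
  unfold rr
  rw [if_pos h]
  rw [Int.cast_natCast, ZMod.natCast_zmod_val]

private theorem EMF_rr (θ : ℝ) (x : ℕ) (α : ℕ → ℚ) : EMF θ x (rr α) = EMQ θ x α := by
  unfold EMF EMQ
  have h1 : (Icc 1 ⌊(x : ℝ) ^ θ⌋₊).filter (fun q : ℕ => IsCoprime (rr α q) (q : ℤ)) =
      (Icc 1 ⌊(x : ℝ) ^ θ⌋₊).filter (fun q : ℕ => IsCoprime ((α q).num * ((α q).den : ℤ)) (q : ℤ)) :=
    filter_congr fun q hq => rr_cop α q (mem_Icc.1 hq).1
  rw [h1]
  refine sum_congr rfl fun q hq => ?_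
  rw [mem_filter, mem_Icc] at hq
  rw [rr_cast α q hq.1.1 hq.2]

/-- agreement mod `q` -/
private theorem dvd_num (q : ℕ) (hq : 1 ≤ q) (a b : ℚ) (ha : IsCoprime (a.num * (a.den : ℤ)) (q : ℤ)) (hb : IsCoprime (b.num * (b.den : ℤ)) (q : ℤ))
    (h : cls q a = cls q b) : (q : ℤ) ∣ (a - b).num := by
  have hua := den_unit q a ha
  have hub := den_unit q b hb
  have h1 : ((a.num : ℤ) : ZMod q) * ((b.den : ℕ) : ZMod q) = ((b.num : ℤ) : ZMod q) * ((a.den : ℕ) : ZMod q) := by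
    have e1 : ((a.num : ℤ) : ZMod q) = cls q a * ((a.den : ℕ) : ZMod q) := by
      unfold cls
      rw [mul_assoc, ZMod.inv_mul_of_unit _ hua, mul_one]
    have e2 : ((b.num : ℤ) : ZMod q) = cls q b * ((b.den : ℕ) : ZMod q) := by
      unfold cls
      rw [mul_assoc, ZMod.inv_mul_of_unit _ hub, mul_one]
    rw [e1, e2, h]
    ring
  have h2 : (q : ℤ) ∣ a.num * (b.den : ℤ) - b.num * (a.den : ℤ) := by
    rw [← ZMod.intCast_zmod_eq_zero_iff_dvd]
    push_cast
    rw [sub_eq_zero]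
    exact_mod_cast h1
  have h3 : (a - b).num * ((a.den : ℤ) * (b.den : ℤ)) = (a.num * (b.den : ℤ) - b.num * (a.den : ℤ)) * ((a - b).den : ℤ) := by
    have h4 : ((a - b).num : ℚ) = (a - b) * ((a - b).den : ℚ) := (Rat.mul_den_eq_num _).symm
    have h5 : (a.num : ℚ) = a * (a.den : ℚ) := (Rat.mul_den_eq_num _).symm
    have h6 : (b.num : ℚ) = b * (b.den : ℚ) := (Rat.mul_den_eq_num _).symm
    have h7 : (((a - b).num * ((a.den : ℤ) * (b.den : ℤ)) : ℤ) : ℚ) = (((a.num * (b.den : ℤ) - b.num * (a.den : ℤ)) * ((a - b).den : ℤ) : ℤ) : ℚ) := by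
      push_cast
      rw [h4, h5, h6]
      ring
    exact_mod_cast h7
  have h8 : (q : ℤ) ∣ (a - b).num * ((a.den : ℤ) * (b.den : ℤ)) := by
    rw [h3]
    exact Dvd.dvd.mul_right h2 _
  have h9 : IsCoprime (q : ℤ) ((a.den : ℤ) * (b.den : ℤ)) := by
    have e1 : IsCoprime (a.den : ℤ) (q : ℤ) := ha.of_mul_left_right
    have e2 : IsCoprime (b.den : ℤ) (q : ℤ) := hb.of_mul_left_right
    exact (e1.mul_left e2).symm
  exact h9.dvd_of_dvd_mul_right h8

/-- the size of the numerator -/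
private theorem num_le (a b : ℚ) (H : ℤ) (ha : |a.num| ≤ H) (ha' : (a.den : ℤ) ≤ H) (hb : |b.num| ≤ H) (hb' : (b.den : ℤ) ≤ H) (hab : a ≠ b) :
    1 ≤ (a - b).num.natAbs ∧ ((a - b).num.natAbs : ℤ) ≤ 2 * H ^ 2 := by
  have h0 : (a - b).num ≠ 0 := by
    rw [Rat.num_ne_zero]
    exact sub_ne_zero.2 hab
  refine ⟨Int.natAbs_pos.2 h0, ?_⟩
  have h3 : (a - b).num * ((a.den : ℤ) * (b.den : ℤ)) = (a.num * (b.den : ℤ) - b.num * (a.den : ℤ)) * ((a - b).den : ℤ) := by
    have h4 : ((a - b).num : ℚ) = (a - b) * ((a - b).den : ℚ) := (Rat.mul_den_eq_num _).symm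
    have h5 : (a.num : ℚ) = a * (a.den : ℚ) := (Rat.mul_den_eq_num _).symm
    have h6 : (b.num : ℚ) = b * (b.den : ℚ) := (Rat.mul_den_eq_num _).symm
    have h7 : (((a - b).num * ((a.den : ℤ) * (b.den : ℤ)) : ℤ) : ℚ) = (((a.num * (b.den : ℤ) - b.num * (a.den : ℤ)) * ((a - b).den : ℤ) : ℤ) : ℚ) := by
      push_cast
      rw [h4, h5, h6]
      ring
    exact_mod_cast h7
  have h4 : (a - b).num ∣ a.num * (b.den : ℤ) - b.num * (a.den : ℤ) := by
    have h5 : (a - b).num ∣ (a.num * (b.den : ℤ) - b.num * (a.den : ℤ)) * ((a - b).den : ℤ) := ⟨_, h3.symm⟩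
    have h6 : IsCoprime (a - b).num ((a - b).den : ℤ) := by
      rw [Int.isCoprime_iff_gcd_eq_one]
      have h7 := (a - b).reduced
      rw [Nat.Coprime] at h7
      rw [Int.gcd_def]
      exact h7
    exact h6.dvd_of_dvd_mul_right h5
  have h5 : a.num * (b.den : ℤ) - b.num * (a.den : ℤ) ≠ 0 := by
    intro h6
    rw [h6, zero_mul] at h3
    have h7 : (a.den : ℤ) ≠ 0 := by exact_mod_cast a.den_nz
    have h8 : (b.den : ℤ) ≠ 0 := by exact_mod_cast b.den_nz
    exact (mul_ne_zero h0 (mul_ne_zero h7 h8)) h3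
  have h6 : ((a - b).num.natAbs : ℤ) ≤ |a.num * (b.den : ℤ) - b.num * (a.den : ℤ)| := by
    have h7 := Int.natAbs_le_of_dvd_ne_zero h4 h5
    rw [Int.abs_eq_natAbs]
    exact_mod_cast h7
  have hd1 : (0 : ℤ) ≤ a.den := by positivity
  have hd2 : (0 : ℤ) ≤ b.den := by positivity
  have hH : 0 ≤ H := hd1.trans ha'
  have h7 : |a.num * (b.den : ℤ)| ≤ H * H := by
    rw [abs_mul, abs_of_nonneg hd2]
    exact mul_le_mul ha hb' hd2 hH
  have h8 : |b.num * (a.den : ℤ)| ≤ H * H := by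
    rw [abs_mul, abs_of_nonneg hd1]
    exact mul_le_mul hb ha' hd1 hH
  have h9 := abs_sub (a.num * (b.den : ℤ)) (b.num * (a.den : ℤ))
  nlinarith

private theorem qs_ev (C e : ℝ) (he : 0 < e) : ∃ x0 : ℕ, ∀ x : ℕ, x0 ≤ x → C ≤ (x : ℝ) ^ e ∧ 2 ≤ x := by
  have h1 : Filter.Tendsto (fun x : ℕ => (x : ℝ) ^ e) Filter.atTop Filter.atTop :=
    (tendsto_rpow_atTop he).comp tendsto_natCast_atTop_atTop
  obtain ⟨x0, hx0⟩ := Filter.eventually_atTop.1 ((h1.eventually_ge_atTop C).and (Filter.eventually_ge_atTop 2))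
  exact ⟨x0, hx0⟩

/-- Families of sets of rational numbers. -/
theorem few_rat (θ ε : ℝ) (hθ : θ < 1) (hε : 0 < ε) (c K : ℕ) : ∃ x0 : ℕ, ∀ x : ℕ, x0 ≤ x → ∀ F : Finset (Finset ℚ),
    (∀ A ∈ F, ∀ a ∈ A, |a.num| ≤ (x : ℤ) ^ K ∧ (a.den : ℤ) ≤ (x : ℤ) ^ K) →
    (∀ A ∈ F, ∀ B ∈ F, A ≠ B → Disjoint A B ∧ (((A ×ˢ B).image (fun p => p.1 - p.2)).card : ℝ) ≤ (x : ℝ) ^ (1 - θ - ε)) →
    (∀ A ∈ F, ∃ α : ℕ → ℚ, (∀ q, α q ∈ A) ∧ x / Real.log x ^ c < EMQ θ x α) → (F.card : ℝ) ≤ (x : ℝ) ^ (2 * θ - 1 + ε) := by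
  classical
  obtain ⟨x1, hx1⟩ := few_fn θ (ε / 2) hθ (by linarith) c
  have hK0 : (0 : ℝ) < (K : ℝ) + 1 := by positivity
  set e1 : ℝ := ε / (8 * ((K : ℝ) + 1)) with he1
  have he1pos : 0 < e1 := by positivity
  obtain ⟨C, hC1, hC⟩ := Pool.Agent.H92.EH.div_bound e1 he1pos
  obtain ⟨x2, hx2⟩ := qs_ev C (ε / 4) (by linarith)
  refine ⟨max x1 x2, fun x hx F hht hdis hbad => ?_⟩
  have hfew := hx1 x ((le_max_left _ _).trans hx)
  obtain ⟨hCx, hx2'⟩ := hx2 x ((le_max_right _ _).trans hx)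
  have hx2r : (2 : ℝ) ≤ x := by exact_mod_cast hx2'
  have hxpos : (0 : ℝ) < x := by linarith
  have hx1r : (1 : ℝ) ≤ x := by linarith
  choose! α hα using hbad
  have key : (F.card : ℝ) ≤ (x : ℝ) ^ (2 * θ - 1 + ε / 2) := by
    refine hfew (Finset ℚ) (fun A => rr (α A)) F ?_ ?_
    · intro A hA B hB hAB
      obtain ⟨hd, hcard⟩ := hdis A hA B hB hAB
      set D := (A ×ˢ B).image (fun p => p.1 - p.2) with hD
      set M := ⌊(x : ℝ) ^ θ⌋₊ with hM
      have hMr : (M : ℝ) ≤ (x : ℝ) ^ θ := Nat.floor_le (by positivity)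
      have hdiv : ∀ d ∈ D, 1 ≤ d.num.natAbs ∧ (d.num.natAbs.divisors.card : ℝ) ≤ (x : ℝ) ^ (ε / 2) := by
        intro d hd'
        rw [hD, mem_image] at hd'
        obtain ⟨p, hp, rfl⟩ := hd'
        rw [mem_product] at hp
        have hne : p.1 ≠ p.2 := by
          intro h
          exact (Finset.disjoint_left.1 hd hp.1) (h ▸ hp.2)
        obtain ⟨h1, h2⟩ := num_le p.1 p.2 ((x : ℤ) ^ K) (hht A hA _ hp.1).1 (hht A hA _ hp.1).2 (hht B hB _ hp.2).1 (hht B hB _ hp.2).2 hne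
        refine ⟨h1, (hC _ h1).trans ?_⟩
        have h3 : (((p.1 - p.2).num.natAbs : ℕ) : ℝ) ≤ (x : ℝ) ^ (2 * K + 1) := by
          have h4 : (((p.1 - p.2).num.natAbs : ℕ) : ℝ) ≤ 2 * ((x : ℝ) ^ K) ^ 2 := by exact_mod_cast h2
          refine h4.trans ?_
          have h4' : (x : ℝ) ^ (2 * K + 1) = (x : ℝ) * ((x : ℝ) ^ K) ^ 2 := by
            rw [← pow_mul]
            ring
          rw [h4']
          exact mul_le_mul_of_nonneg_right hx2r (by positivity)
        have h5 : (((p.1 - p.2).num.natAbs : ℕ) : ℝ) ^ e1 ≤ (x : ℝ) ^ (ε / 4) := by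
          refine (Real.rpow_le_rpow (by positivity) h3 he1pos.le).trans ?_
          rw [← Real.rpow_natCast, ← Real.rpow_mul hxpos.le]
          refine Real.rpow_le_rpow_of_exponent_le hx1r ?_
          push_cast
          rw [he1, mul_div_assoc', div_le_div_iff₀ (by positivity) (by norm_num)]
          nlinarith [hε, (Nat.cast_nonneg K : (0 : ℝ) ≤ K), mul_nonneg hε.le (Nat.cast_nonneg K : (0 : ℝ) ≤ K)]
        calc C * (((p.1 - p.2).num.natAbs : ℕ) : ℝ) ^ e1 ≤ (x : ℝ) ^ (ε / 4) * (x : ℝ) ^ (ε / 4) :=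
              mul_le_mul hCx h5 (by positivity) (by positivity)
          _ = (x : ℝ) ^ (ε / 2) := by
              rw [← Real.rpow_add hxpos]
              congr 1
              ring
      have hsub : (Icc 1 M).filter (fun q : ℕ => (x : ℝ) ^ ((1 - ε / 2) / 2) < q ∧ (q : ℤ) ∣ rr (α A) q - rr (α B) q ∧ IsCoprime (rr (α A) q) (q : ℤ)) ⊆
          D.biUnion (fun d => d.num.natAbs.divisors.filter (fun q => q ≤ M)) := by
        intro q hq
        rw [mem_filter, mem_Icc] at hq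
        obtain ⟨⟨hq1, hqM⟩, -, hq2, hq3⟩ := hq
        have hq4 : IsCoprime (rr (α B) q) (q : ℤ) := by
          obtain ⟨k, hk⟩ := hq2
          have h1 : rr (α A) q = rr (α B) q + (q : ℤ) * k := by linarith
          rw [h1] at hq3
          exact IsCoprime.add_mul_left_left_iff.1 hq3
        have c1 := (rr_cop (α A) q hq1).1 hq3
        have c2 := (rr_cop (α B) q hq1).1 hq4
        have h5 : cls q (α A q) = cls q (α B q) := by
          rw [← rr_cast (α A) q hq1 c1, ← rr_cast (α B) q hq1 c2]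
          exact ((ZMod.intCast_eq_intCast_iff_dvd_sub _ _ _).2 hq2).symm
        have h6 := dvd_num q hq1 _ _ c1 c2 h5
        rw [mem_biUnion]
        have h7 : α A q - α B q ∈ D := by
          rw [hD, mem_image]
          exact ⟨(α A q, α B q), mem_product.2 ⟨(hα A hA).1 q, (hα B hB).1 q⟩, rfl⟩
        refine ⟨_, h7, ?_⟩
        rw [mem_filter, Nat.mem_divisors]
        have h8 := (hdiv _ h7).1
        exact ⟨⟨Int.natCast_dvd.1 h6, by omega⟩, hqM⟩
      have h1 : agree θ (ε / 2) x (rr (α A)) (rr (α B)) ≤ ∑ d ∈ D, (x : ℝ) ^ (ε / 2) * (x : ℝ) ^ θ := by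
        unfold agree
        rw [← hM]
        set S := (Icc 1 M).filter (fun q : ℕ => (x : ℝ) ^ ((1 - ε / 2) / 2) < q ∧ (q : ℤ) ∣ rr (α A) q - rr (α B) q ∧ IsCoprime (rr (α A) q) (q : ℤ)) with hS
        have h2 : ∑ q ∈ S, (q : ℝ) ≤ ∑ _q ∈ S, (x : ℝ) ^ θ := by
          refine sum_le_sum fun q hq => ?_
          rw [hS, mem_filter, mem_Icc] at hq
          have h3 : (q : ℝ) ≤ M := by exact_mod_cast hq.1.2
          exact h3.trans hMr
        refine h2.trans ?_
        rw [sum_const, nsmul_eq_mul, ← sum_mul]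
        refine mul_le_mul_of_nonneg_right ?_ (by positivity)
        have h3 : (S.card : ℝ) ≤ ∑ d ∈ D, (d.num.natAbs.divisors.card : ℝ) := by
          have h4 : S.card ≤ ∑ d ∈ D, d.num.natAbs.divisors.card := by
            refine (card_le_card hsub).trans (card_biUnion_le.trans (sum_le_sum fun d _ => card_filter_le _ _))
          exact_mod_cast h4
        exact h3.trans (sum_le_sum fun d hd' => (hdiv d hd').2)
      refine h1.trans ?_
      rw [sum_const, nsmul_eq_mul]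
      calc (D.card : ℝ) * ((x : ℝ) ^ (ε / 2) * (x : ℝ) ^ θ) ≤ (x : ℝ) ^ (1 - θ - ε) * ((x : ℝ) ^ (ε / 2) * (x : ℝ) ^ θ) :=
            mul_le_mul_of_nonneg_right hcard (by positivity)
        _ = (x : ℝ) ^ (1 - ε / 2) := by
            rw [← Real.rpow_add hxpos, ← Real.rpow_add hxpos]
            congr 1
            ring
    · intro A hA
      rw [EMF_rr]
      exact (hα A hA).2
  refine key.trans (Real.rpow_le_rpow_of_exponent_le hx1r (by linarith))

end Pool.Agent.H35.FX
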